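import Pool.Agent.N110.RK.Stm

/-!
# RK/Eig: common eigenvectors in a cone with compact basis
-/

set_option autoImplicit false

open Filter Topology

namespace Pool.Agent.N136.RK

/-- the growth of an almost submultiplicative sequence -/
theorem growth (a : ℕ → ℝ) (B c : ℝ) (ha0 : a 0 = 1) (hpos : ∀ l, 0 < a l)
    (hsub : ∀ l l', a (l + l') ≤ B * (a l * a l')) (hc : 0 < c)
    (hlow : ∀ l, c * a l ≤ a (l + 1)) :
    ∃ L : ℝ, (∀ l : ℕ, Real.exp (L * l) ≤ B * a l) ∧
      Tendsto (fun l : ℕ => Real.log (a l) / l) atTop (𝓝 L) := by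
  have hB : 1 ≤ B := by
    have := hsub 0 0
    rw [add_zero, ha0] at this
    linarith
  have hB0 : 0 < B := by linarith
  have hs : Subadditive fun l => Real.log (B * a l) := by
    intro m n
    rw [← Real.log_mul (mul_pos hB0 (hpos m)).ne' (mul_pos hB0 (hpos n)).ne']
    refine Real.log_le_log (mul_pos hB0 (hpos _)) ?_
    have := mul_le_mul_of_nonneg_left (hsub m n) hB0.le
    linarith
  have hcl : ∀ l, c ^ l ≤ a l := by
    intro l
    induction l with
    | zero => rw [pow_zero, ha0]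
    | succ l ih =>
      rw [pow_succ]
      have := hlow l
      nlinarith
  have hbdd : BddBelow (Set.range fun n : ℕ => Real.log (B * a n) / n) := by
    refine ⟨min (Real.log c) 0, ?_⟩
    rintro _ ⟨n, rfl⟩
    rcases Nat.eq_zero_or_pos n with h | h
    · subst h
      simp
    · refine (min_le_left _ _).trans ?_
      have hn : (0 : ℝ) < n := by exact_mod_cast h
      show Real.log c ≤ Real.log (B * a n) / n
      rw [le_div_iff₀ hn, mul_comm, ← Real.log_pow]
      refine Real.log_le_log (pow_pos hc _) ?_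
      have h1 := hcl n
      have h2 := hpos n
      nlinarith
  refine ⟨hs.lim, fun l => ?_, ?_⟩
  · rcases Nat.eq_zero_or_pos l with h | h
    · subst h
      simp [ha0, hB]
    · have hn : (0 : ℝ) < l := by exact_mod_cast h
      have h1 := hs.lim_le_div hbdd h.ne'
      rw [le_div_iff₀ hn] at h1
      rw [← Real.le_log_iff_exp_le (mul_pos hB0 (hpos l))]
      exact h1
  · have h1 := hs.tendsto_lim hbdd
    have h2 : Tendsto (fun l : ℕ => Real.log B / l) atTop (𝓝 0) :=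
      tendsto_const_nhds.div_atTop tendsto_natCast_atTop_atTop
    have h3 := h1.sub h2
    rw [sub_zero] at h3
    refine h3.congr fun l => ?_
    rw [Real.log_mul hB0.ne' (hpos l).ne']
    ring

theorem small (b : ℕ → ℝ) (hpos : ∀ l, 0 < b l)
    (hlim : Tendsto (fun l : ℕ => Real.log (b l) / l) atTop (𝓝 0)) (ε : ℝ) (hε : 0 < ε)
    (M₀ : ℕ) : ∃ M, M₀ ≤ M ∧ b M ≤ ε * ∑ l ∈ Finset.range M, b l := by
  by_contra hcon
  push Not at hcon
  set n : ℕ → ℝ := fun M => ∑ l ∈ Finset.range M, b l with hn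
  set m := M₀ + 1 with hm
  have hnm : 0 < n m := Finset.sum_pos (fun l _ => hpos l) ⟨0, by simp [hm]⟩
  have h1 : ∀ k, (1 + ε) ^ k * n m ≤ n (m + k) := by
    intro k
    induction k with
    | zero => simp
    | succ k ih =>
      have h2 : n (m + (k + 1)) = n (m + k) + b (m + k) := by
        rw [← add_assoc]
        exact Finset.sum_range_succ _ _
      have h3 := hcon (m + k) (by omega)
      rw [h2, pow_succ]
      have h4 : ε * n (m + k) < b (m + k) := h3
      nlinarith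
  have h2 : ∀ k, Real.log (ε * n m) + k * Real.log (1 + ε) ≤ Real.log (b (m + k)) := by
    intro k
    rw [← Real.log_pow, ← Real.log_mul (mul_pos hε hnm).ne' (pow_pos (by linarith) k).ne']
    refine Real.log_le_log (mul_pos (mul_pos hε hnm) (pow_pos (by linarith) k)) ?_
    have h3 : ε * n (m + k) < b (m + k) := hcon (m + k) (by omega)
    have h4 := mul_le_mul_of_nonneg_left (h1 k) hε.le
    linarith
  have h3 : Tendsto (fun k : ℕ => Real.log (b (m + k)) / ((m + k : ℕ) : ℝ)) atTop (𝓝 0) := by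
    have : Tendsto (fun k : ℕ => m + k) atTop atTop := tendsto_add_atTop_nat m |>.congr fun k => by
      ring
    exact hlim.comp this
  have h4 : Tendsto (fun k : ℕ => (Real.log (ε * n m) + k * Real.log (1 + ε)) /
      ((m + k : ℕ) : ℝ)) atTop (𝓝 (Real.log (1 + ε))) := by
    have h5 : Tendsto (fun k : ℕ => (Real.log (ε * n m) - m * Real.log (1 + ε)) /
        ((m + k : ℕ) : ℝ) + Real.log (1 + ε)) atTop (𝓝 (0 + Real.log (1 + ε))) := by
      refine Tendsto.add_const _ ?_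
      refine tendsto_const_nhds.div_atTop ?_
      refine tendsto_natCast_atTop_atTop.comp ?_
      exact tendsto_add_atTop_nat m |>.congr fun k => by ring
    rw [zero_add] at h5
    refine h5.congr fun k => ?_
    have : ((m + k : ℕ) : ℝ) ≠ 0 := by
      have : (0 : ℝ) < ((m + k : ℕ) : ℝ) := by
        rw [hm]
        positivity
      exact this.ne'
    field_simp
    push_cast
    ring
  have h5 := le_of_tendsto_of_tendsto' h4 h3 fun k => by
    gcongr
    exact h2 k
  have h6 : 0 < Real.log (1 + ε) := Real.log_pos (by linarith)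
  linarith

variable {E : Type} [AddCommGroup E] [Module ℝ E] [TopologicalSpace E] [IsTopologicalAddGroup E]
  [ContinuousSMul ℝ E] [T2Space E]

omit [IsTopologicalAddGroup E] [ContinuousSMul ℝ E] [T2Space E] in
/-- the partial sums of the resolvent -/
theorem telescope (P : E →L[ℝ] E) (x₀ : E) (g : ℝ) (hg : g ≠ 0) (M : ℕ) :
    P (∑ l ∈ Finset.range M, (g⁻¹ ^ l) • (P^[l] x₀)) -
      g • (∑ l ∈ Finset.range M, (g⁻¹ ^ l) • (P^[l] x₀)) =
      g • ((g⁻¹ ^ M) • (P^[M] x₀)) - g • x₀ := by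
  induction M with
  | zero => simp
  | succ M ih =>
    rw [Finset.sum_range_succ, map_add, map_smul, smul_add]
    have h1 : P (P^[M] x₀) = P^[M + 1] x₀ := (Function.iterate_succ_apply' _ _ _).symm
    rw [h1]
    have h2 : g • ((g⁻¹ ^ (M + 1)) • (P^[M + 1] x₀)) = (g⁻¹ ^ M) • (P^[M + 1] x₀) := by
      rw [smul_smul, pow_succ]
      congr 1
      field_simp
    rw [h2]
    have h3 := ih
    rw [sub_eq_iff_eq_add] at h3
    rw [h3]
    abel

theorem eigenvector (𝓛 : Set E) (N : E →L[ℝ] ℝ) (P : E →L[ℝ] E) (x₀ : E) (B : ℝ)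
    (hadd : ∀ x ∈ 𝓛, ∀ y ∈ 𝓛, x + y ∈ 𝓛) (hsmul : ∀ c : ℝ, 0 ≤ c → ∀ x ∈ 𝓛, c • x ∈ 𝓛)
    (hK : IsCompact {x | x ∈ 𝓛 ∧ N x = 1}) (hP : ∀ x ∈ 𝓛, P x ∈ 𝓛)
    (hN : ∀ x ∈ 𝓛, N x = 1 → 0 < N (P x)) (hx₀ : x₀ ∈ 𝓛) (hNx₀ : N x₀ = 1)
    (hB : ∀ l l' : ℕ, N (P^[l + l'] x₀) ≤ B * (N (P^[l] x₀) * N (P^[l'] x₀))) :
    ∃ x ∈ 𝓛, N x = 1 ∧ ∃ g : ℝ, 0 < g ∧ P x = g • x := by
  set K : Set E := {x | x ∈ 𝓛 ∧ N x = 1} with hKdef
  have hKne : K.Nonempty := ⟨x₀, hx₀, hNx₀⟩
  -- the lower bound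
  obtain ⟨z, hz, hzmin⟩ := hK.exists_isMinOn hKne (f := fun x => N (P x))
    (N.continuous.comp P.continuous).continuousOn
  set c := N (P z) with hcdef
  have hc : 0 < c := hN z hz.1 hz.2
  have hcK : ∀ x ∈ K, c ≤ N (P x) := fun x hx => hzmin hx
  have hlow : ∀ y ∈ 𝓛, 0 < N y → c * N y ≤ N (P y) := by
    intro y hy hNy
    have h1 : (N y)⁻¹ • y ∈ K := by
      refine ⟨hsmul _ (inv_nonneg.2 hNy.le) y hy, ?_⟩
      rw [map_smul, smul_eq_mul, inv_mul_cancel₀ hNy.ne']
    have h2 := hcK _ h1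
    rw [map_smul, map_smul, smul_eq_mul, ← div_eq_inv_mul, le_div_iff₀ hNy] at h2
    exact h2
  set a : ℕ → ℝ := fun l => N (P^[l] x₀) with ha
  have hmem : ∀ l, P^[l] x₀ ∈ 𝓛 := by
    intro l
    induction l with
    | zero => exact hx₀
    | succ l ih => rw [Function.iterate_succ_apply']; exact hP _ ih
  have hsucc : ∀ l, 0 < a l → c * a l ≤ a (l + 1) := by
    intro l hl
    have := hlow _ (hmem l) hl
    rw [← Function.iterate_succ_apply' P l x₀] at this
    exact this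
  have hpos : ∀ l, 0 < a l := by
    intro l
    induction l with
    | zero => show 0 < N x₀; rw [hNx₀]; exact one_pos
    | succ l ih => exact lt_of_lt_of_le (mul_pos hc ih) (hsucc l ih)
  obtain ⟨L, hL1, hL2⟩ := growth a B c hNx₀ hpos hB hc fun l => hsucc l (hpos l)
  set g := Real.exp L with hg
  have hg0 : 0 < g := Real.exp_pos L
  set b : ℕ → ℝ := fun l => g⁻¹ ^ l * a l with hb
  have hbpos : ∀ l, 0 < b l := fun l => mul_pos (pow_pos (inv_pos.2 hg0) l) (hpos l)
  have hgl : ∀ l : ℕ, g ^ l = Real.exp (L * l) := fun l => by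
    rw [hg, ← Real.exp_nat_mul, mul_comm]
  have hBpos : 0 < B := by
    have h1 := hL1 0
    have h2 := hpos 0
    have h3 : 0 < B * a 0 := lt_of_lt_of_le (Real.exp_pos _) h1
    exact pos_of_mul_pos_left h3 h2.le
  have hblow : ∀ l, 1 / B ≤ b l := by
    intro l
    have h1 := hL1 l
    rw [← hgl] at h1
    rw [div_le_iff₀ hBpos]
    show 1 ≤ g⁻¹ ^ l * a l * B
    rw [inv_pow, mul_assoc, ← div_eq_inv_mul, one_le_div (pow_pos hg0 l)]
    linarith
  have hblim : Tendsto (fun l : ℕ => Real.log (b l) / l) atTop (𝓝 0) := by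
    have h1 := hL2.sub_const L
    rw [sub_self] at h1
    refine h1.congr' ?_
    filter_upwards [eventually_ge_atTop 1] with l hl
    have hl' : (l : ℝ) ≠ 0 := by
      have : (0 : ℝ) < l := by exact_mod_cast hl
      exact this.ne'
    rw [hb]
    simp only
    rw [Real.log_mul (pow_pos (inv_pos.2 hg0) l).ne' (hpos l).ne', Real.log_pow, Real.log_inv, hg,
      Real.log_exp]
    field_simp
    ring
  -- approximate eigenvectors
  have hsmall : ∀ j : ℕ, ∃ M : ℕ, b M ≤ 1 / ((j : ℝ) + 1) * ∑ l ∈ Finset.range M, b l ∧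
      1 ≤ 1 / ((j : ℝ) + 1) * ∑ l ∈ Finset.range M, b l := by
    intro j
    obtain ⟨M₀, hM₀⟩ := exists_nat_ge (B * ((j : ℝ) + 1))
    obtain ⟨M, hM, hM'⟩ := small b hbpos hblim (1 / ((j : ℝ) + 1)) (by positivity) M₀
    refine ⟨M, hM', ?_⟩
    have h1 : (M : ℝ) * (1 / B) ≤ ∑ l ∈ Finset.range M, b l := by
      have := Finset.card_nsmul_le_sum (Finset.range M) b (1 / B) fun l _ => hblow l
      rwa [Finset.card_range, nsmul_eq_mul] at this
    have h2 : (j : ℝ) + 1 ≤ ∑ l ∈ Finset.range M, b l := by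
      refine le_trans ?_ h1
      rw [mul_one_div, le_div_iff₀ hBpos]
      have : (M₀ : ℝ) ≤ M := by exact_mod_cast hM
      linarith
    rw [one_div, ← div_eq_inv_mul, one_le_div (by positivity)]
    exact h2
  choose M hM1 hM2 using hsmall
  set n : ℕ → ℝ := fun j => ∑ l ∈ Finset.range (M j), b l with hn
  have hnpos : ∀ j, 0 < n j := by
    intro j
    have h1 := hM2 j
    have h2 : 0 < 1 / ((j : ℝ) + 1) := by positivity
    by_contra h
    push Not at h
    have h3 : 1 / ((j : ℝ) + 1) * n j ≤ 0 := mul_nonpos_of_nonneg_of_nonpos h2.le h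
    linarith
  set x : ℕ → E := fun j => (n j)⁻¹ • ∑ l ∈ Finset.range (M j), (g⁻¹ ^ l) • (P^[l] x₀) with hx
  have hxK : ∀ j, x j ∈ K := by
    intro j
    constructor
    · refine hsmul _ (inv_nonneg.2 (hnpos j).le) _ ?_
      refine Finset.sum_induction _ (· ∈ 𝓛) (fun u v hu hv => hadd u hu v hv) ?_ fun l _ => ?_
      · have := hsmul 0 le_rfl x₀ hx₀
        rwa [zero_smul] at this
      · exact hsmul _ (pow_nonneg (inv_nonneg.2 hg0.le) l) _ (hmem l)
    · show N ((n j)⁻¹ • _) = 1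
      rw [map_smul, map_sum, smul_eq_mul]
      have : ∑ l ∈ Finset.range (M j), N ((g⁻¹ ^ l) • (P^[l] x₀)) = n j := by
        refine Finset.sum_congr rfl fun l _ => ?_
        rw [map_smul, smul_eq_mul]
      rw [this, inv_mul_cancel₀ (hnpos j).ne']
  set F : E → E := fun y => P y - g • y with hF
  have hFc : Continuous F := P.continuous.sub (continuous_const_smul g)
  have hFx : ∀ j, F (x j) = (g * (b (M j) * (n j)⁻¹)) • ((a (M j))⁻¹ • (P^[M j] x₀)) -
      (g * (n j)⁻¹) • x₀ := by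
    intro j
    have h1 := telescope P x₀ g hg0.ne' (M j)
    show P ((n j)⁻¹ • _) - g • ((n j)⁻¹ • _) = _
    rw [map_smul, smul_comm g, ← smul_sub, h1, smul_sub, smul_smul, smul_smul, smul_smul,
      smul_smul]
    congr 2
    · show (n j)⁻¹ * g * g⁻¹ ^ (M j) = g * (g⁻¹ ^ (M j) * a (M j) * (n j)⁻¹) * (a (M j))⁻¹
      have := (hpos (M j)).ne'
      field_simp
    · ring
  have hbd := hK.isVonNBounded ℝ
  have hdec : Tendsto (fun j : ℕ => g * (1 / ((j : ℝ) + 1))) atTop (𝓝 0) := by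
    have := (tendsto_one_div_add_atTop_nhds_zero_nat (𝕜 := ℝ)).const_mul g
    rwa [mul_zero] at this
  have ht1 : Tendsto (fun j : ℕ => g * (b (M j) * (n j)⁻¹)) atTop (𝓝 0) := by
    refine squeeze_zero (fun j => ?_) (fun j => ?_) hdec
    · exact mul_nonneg hg0.le (mul_nonneg (hbpos _).le (inv_nonneg.2 (hnpos j).le))
    · refine mul_le_mul_of_nonneg_left ?_ hg0.le
      rw [← div_eq_mul_inv, div_le_iff₀ (hnpos j)]
      exact hM1 j
  have ht2 : Tendsto (fun j : ℕ => g * (n j)⁻¹) atTop (𝓝 0) := by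
    refine squeeze_zero (fun j => ?_) (fun j => ?_) hdec
    · exact mul_nonneg hg0.le (inv_nonneg.2 (hnpos j).le)
    · refine mul_le_mul_of_nonneg_left ?_ hg0.le
      rw [← one_div, div_le_iff₀ (hnpos j)]
      exact hM2 j
  have hlim : Tendsto (fun j => F (x j)) atTop (𝓝 0) := by
    have h1 := hbd.smul_tendsto_zero (x := fun j => (a (M j))⁻¹ • (P^[M j] x₀)) (l := atTop)
      (Eventually.of_forall fun j => by
        refine ⟨hsmul _ (inv_nonneg.2 (hpos _).le) _ (hmem _), ?_⟩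
        rw [map_smul, smul_eq_mul]
        exact inv_mul_cancel₀ (hpos _).ne') ht1
    have h2 : Tendsto (fun j => (g * (n j)⁻¹) • x₀) atTop (𝓝 0) := by
      have := ht2.smul_const x₀
      rwa [zero_smul] at this
    have h3 := h1.sub h2
    rw [sub_zero] at h3
    refine h3.congr fun j => ?_
    rw [hFx]
    rfl
  have hcl : IsClosed (F '' K) := (hK.image hFc).isClosed
  have h0 : (0 : E) ∈ F '' K :=
    hcl.mem_of_tendsto hlim (Eventually.of_forall fun j => ⟨x j, hxK j, rfl⟩)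
  obtain ⟨y, hy, hy0⟩ := h0
  exact ⟨y, hy.1, hy.2, g, hg0, sub_eq_zero.1 hy0⟩

theorem eig : Pool.Agent.N110.RK.StmEig := by
  intro E _ _ _ _ _ _ _ ι _ _ 𝓛 N T x₀ B hadd hsmul hK hcomm hT hN hx₀ hNx₀ hB
  classical
  set P : E →L[ℝ] E := ∑ i, T i with hPdef
  have hPa : ∀ x, P x = ∑ i, T i x := fun x => by
    rw [hPdef, _root_.sum_apply]
  have hzero : (0 : E) ∈ 𝓛 := by
    have := hsmul 0 le_rfl x₀ hx₀
    rwa [zero_smul] at this
  have hsum : ∀ (s : Finset ι) (f : ι → E), (∀ i ∈ s, f i ∈ 𝓛) → ∑ i ∈ s, f i ∈ 𝓛 :=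
    fun s f hf => Finset.sum_induction _ (· ∈ 𝓛) (fun u v hu hv => hadd u hu v hv) hzero hf
  have hP : ∀ x ∈ 𝓛, P x ∈ 𝓛 := fun x hx => by
    rw [hPa]
    exact hsum _ _ fun i _ => hT i x hx
  have hNP : ∀ x ∈ 𝓛, N x = 1 → 0 < N (P x) := fun x hx hNx => by
    rw [hPa, map_sum]
    exact Finset.sum_pos (fun i _ => hN i x hx hNx) Finset.univ_nonempty
  have hPfun : (∑ i, (T i : E → E)) = (P : E → E) := by
    funext y
    rw [hPa, Finset.sum_apply]
  rw [hPfun] at hB
  obtain ⟨x₁, hx₁, hNx₁, g, hg, hPx₁⟩ :=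
    eigenvector 𝓛 N P x₀ B hadd hsmul hK hP hNP hx₀ hNx₀ hB
  -- extreme points of the eigenspace
  set Kg : Set E := {x | (x ∈ 𝓛 ∧ N x = 1) ∧ P x = g • x} with hKg
  have hKgc : IsCompact Kg := by
    have : Kg = {x | x ∈ 𝓛 ∧ N x = 1} ∩ {x | P x = g • x} := rfl
    rw [this]
    exact hK.inter_right (isClosed_eq P.continuous (continuous_const_smul g))
  obtain ⟨x, hxe⟩ := hKgc.extremePoints_nonempty ⟨x₁, ⟨hx₁, hNx₁⟩, hPx₁⟩
  have hxK : x ∈ Kg := hxe.1
  have hx : x ∈ 𝓛 := hxK.1.1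
  have hNx : N x = 1 := hxK.1.2
  have hPx : P x = g • x := hxK.2
  refine ⟨x, hx, hNx, fun i => ⟨N (T i x), hN i x hx hNx, ?_⟩⟩
  have hcs : ∑ j, N (T j x) = g := by
    rw [← map_sum, ← hPa, hPx, map_smul, hNx, smul_eq_mul, mul_one]
  have hcommP : ∀ j y, P (T j y) = T j (P y) := by
    intro j y
    rw [hPa, hPa, map_sum]
    exact Finset.sum_congr rfl fun k _ => hcomm k j y
  set c := N (T i x) with hc
  have hc0 : 0 < c := hN i x hx hNx
  set d := ∑ j ∈ Finset.univ.erase i, N (T j x) with hd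
  have hcd : c + d = g := by
    rw [← hcs, hc, hd]
    exact Finset.add_sum_erase Finset.univ (fun j => N (T j x)) (Finset.mem_univ i)
  have hd0 : 0 ≤ d := Finset.sum_nonneg fun j _ => (hN j x hx hNx).le
  have hPsplit : P x = T i x + ∑ j ∈ Finset.univ.erase i, T j x := by
    rw [hPa]
    exact (Finset.add_sum_erase Finset.univ (fun j => T j x) (Finset.mem_univ i)).symm
  rcases hd0.eq_or_lt with h | h
  · -- only one index
    have he : Finset.univ.erase i = ∅ := by
      by_contra hne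
      have hpos : 0 < d := Finset.sum_pos (fun j _ => hN j x hx hNx)
        (Finset.nonempty_iff_ne_empty.2 hne)
      linarith
    rw [he, Finset.sum_empty, add_zero] at hPsplit
    rw [← hPsplit, hPx, ← hcd, ← h, add_zero]
  · -- extremality
    have hmemK : ∀ (y : E) (t : ℝ), 0 < t → y ∈ 𝓛 → N y = t → P y = g • y → t⁻¹ • y ∈ Kg := by
      intro y t ht hy hNy hPy
      refine ⟨⟨hsmul _ (inv_nonneg.2 ht.le) y hy, ?_⟩, ?_⟩
      · rw [map_smul, hNy, smul_eq_mul, inv_mul_cancel₀ ht.ne']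
      · rw [map_smul, hPy, smul_comm]
    have h1 : c⁻¹ • T i x ∈ Kg := by
      refine hmemK _ c hc0 (hT i x hx) rfl ?_
      rw [hcommP, hPx, map_smul]
    have h2 : d⁻¹ • (∑ j ∈ Finset.univ.erase i, T j x) ∈ Kg := by
      refine hmemK _ d h (hsum _ _ fun j _ => hT j x hx) ?_ ?_
      · rw [map_sum]
      · rw [map_sum, Finset.smul_sum]
        refine Finset.sum_congr rfl fun j _ => ?_
        rw [hcommP, hPx, map_smul]
    have h3 : x ∈ openSegment ℝ (c⁻¹ • T i x) (d⁻¹ • (∑ j ∈ Finset.univ.erase i, T j x)) := by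
      refine ⟨c / g, d / g, div_pos hc0 hg, div_pos h hg, ?_, ?_⟩
      · rw [← add_div, hcd, div_self hg.ne']
      · rw [smul_smul, smul_smul]
        have e1 : c / g * c⁻¹ = g⁻¹ := by field_simp
        have e2 : d / g * d⁻¹ = g⁻¹ := by field_simp
        rw [e1, e2, ← smul_add, ← hPsplit, hPx, smul_smul, inv_mul_cancel₀ hg.ne', one_smul]
    have h4 : c⁻¹ • T i x = x := hxe.2 h1 h2 h3
    have h5 : c • (c⁻¹ • T i x) = c • x := by rw [h4]
    rwa [smul_smul, mul_inv_cancel₀ hc0.ne', one_smul] at h5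

end Pool.Agent.N136.RK
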